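import Mathlib
import Pool.Agent.Lib.MP_64c4e2_gt.Defs
import Pool.Agent.Lib.MP_64c4e2_gt.Distinct

/-!
# Exotic equivariant intersection forms of immersed `ℤ`-spheres (definite case)

For `g = 0` and `N = S⁴` (or `N = D⁴` and `Δ_K = 1`) the exterior forms of immersed `ℤ`-surfaces
with `(c₊, c₋)` double points are, up to isometry, exactly the forms
`λ = (t - 1)(t⁻¹ - 1) λ'` with `λ'` a nonsingular hermitian form over `ℤ[t, t⁻¹]` such that
`λ'(1) ≅ (1)^{c₊} ⊕ (-1)^{c₋}`.

We show that for `(c₊, c₋) = (c, 0)` or `(0, c)` with `c ≥ 2` there are infinitely many isometry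
classes of such forms.

Over the lattice `E_k = Λ (f_k, f̄_k) + 2 Λ²`, where `f_k = 1 + t^k - t^(3k)`, the form
`(u ū + v v̄) / 2` is nonsingular, has value `(1) ⊕ (1)` at `t = 1`, but represents no unit.
-/

open LaurentPolynomial Matrix
open Pool.Agent.Lib.MP_64c4e2_gt

namespace Pool.Agent.Results.MP_64c4e2_gt.DefiniteExotic

/-- The augmentation `ℤ[t, t⁻¹] → ℤ`, `t ↦ 1`. -/
noncomputable def aug : ℤ[T;T⁻¹] →+* ℤ := eval₂ (RingHom.id ℤ) 1

/-- The standard form `(1)^{⊕ cp} ⊕ (-1)^{⊕ cm}` over a commutative ring. -/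
def stdForm (R : Type) [CommRing R] (cp cm : ℕ) :
    Matrix (Fin cp ⊕ Fin cm) (Fin cp ⊕ Fin cm) R :=
  Matrix.diagonal (Sum.elim (fun _ => 1) (fun _ => -1))

/-- The scalar `(t - 1)(t⁻¹ - 1)`. -/
noncomputable def sc : ℤ[T;T⁻¹] := (T 1 - 1) * (T (-1) - 1)

/-- The matrices `L = (t - 1)(t⁻¹ - 1) L'` with `L'` hermitian and nonsingular over `ℤ[t, t⁻¹]` and
`L'(1)` congruent over `ℤ` to `(1)^{⊕ cp} ⊕ (-1)^{⊕ cm}`. -/
def IsExteriorForm (cp cm : ℕ)
    (L : Matrix (Fin cp ⊕ Fin cm) (Fin cp ⊕ Fin cm) ℤ[T;T⁻¹]) : Prop :=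
  ∃ L' : Matrix (Fin cp ⊕ Fin cm) (Fin cp ⊕ Fin cm) ℤ[T;T⁻¹],
    conjT L' = L' ∧ IsUnit L'.det ∧
    (∃ Q : Matrix (Fin cp ⊕ Fin cm) (Fin cp ⊕ Fin cm) ℤ, IsUnit Q.det ∧
      Qᵀ * L'.map aug * Q = stdForm ℤ cp cm) ∧
    L = sc • L'

lemma aug_T (n : ℤ) : aug (T n) = 1 := by
  simp [aug]

lemma aug_invert_T (n : ℤ) : aug (invert (T n)) = 1 := by
  rw [invert_T, aug_T]

lemma aug_Gm (k : ℤ) : (Gm k).map aug = !![1, 1; 1, 2] := by
  have h1 : aug (fp k) = 1 := by simp [fp, aug_T]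
  have h2 : aug (invert (fp k)) = 1 := by simp [invert_fp, aug_T]
  have h3 : aug (rp k) = 1 := by simp [rp, aug_T]
  have h4 : aug (invert (rp k)) = 1 := by simp [rp, aug_T]
  have h5 : aug (sp k) = 0 := by simp [sp, aug_T]
  have h6 : aug (invert (sp k)) = 0 := by simp [sp, aug_T]
  refine Matrix.ext fun i j => ?_
  have h7 : aug 2 = 2 := map_ofNat _ 2
  fin_cases i <;> fin_cases j <;> simp [Gm, h1, h2, h3, h4, h5, h6, h7]

section Transport

variable {m : ℕ} {n : Type} [Fintype n] [DecidableEq n] (e : Fin 2 ⊕ Fin m ≃ n)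

/-- The sequence of forms, on an arbitrary index type. -/
noncomputable def sq (k : ℕ) : Matrix n n ℤ[T;T⁻¹] :=
  if k = 0 then 1 else Matrix.reindex e e (Fm m k)

omit [Fintype n] [DecidableEq n] in
lemma conjT_reindex (A : Matrix (Fin 2 ⊕ Fin m) (Fin 2 ⊕ Fin m) ℤ[T;T⁻¹]) :
    conjT (Matrix.reindex e e A) = Matrix.reindex e e (conjT A) := rfl

lemma conjT_Fm (k : ℤ) : conjT (Fm m k) = Fm m k := by
  unfold Fm
  have h := conjT_Gm k
  unfold conjT at h ⊢
  rw [Matrix.fromBlocks_map, Matrix.fromBlocks_transpose, h]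
  have h1 : (1 : Matrix (Fin m) (Fin m) ℤ[T;T⁻¹]).map invert = 1 := by
    refine Matrix.ext fun i j => ?_
    rw [Matrix.map_apply, Matrix.one_apply]
    split_ifs <;> simp
  rw [h1, Matrix.transpose_one]
  congr 1

omit [Fintype n] in
lemma conjT_sq (k : ℕ) : conjT (sq e k) = sq e k := by
  unfold sq
  split_ifs
  · exact conjT_one
  · rw [conjT_reindex, conjT_Fm]

lemma det_sq (k : ℕ) : (sq e k).det = 1 := by
  unfold sq
  split_ifs
  · exact Matrix.det_one
  · rw [Matrix.det_reindex_self, Fm, Matrix.det_fromBlocks_zero₁₂, det_Gm, Matrix.det_one, one_mul]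

lemma aug_sq (k : ℕ) : ∃ Q : Matrix n n ℤ, IsUnit Q.det ∧ Qᵀ * (sq e k).map aug * Q = 1 := by
  by_cases hk : k = 0
  · refine ⟨1, by simp, ?_⟩
    have : (sq e k).map aug = 1 := by
      unfold sq
      rw [if_pos hk]
      exact Matrix.map_one aug (map_zero _) (map_one _)
    rw [this]
    simp
  · refine ⟨Matrix.reindex e e (Matrix.fromBlocks !![1, -1; 0, 1] 0 0 1), ?_, ?_⟩
    · rw [Matrix.det_reindex_self, Matrix.det_fromBlocks_zero₁₂, Matrix.det_one,
        Matrix.det_fin_two_of]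
      norm_num
    · have h1 : (sq e k).map aug = Matrix.reindex e e (Matrix.fromBlocks !![1, 1; 1, 2] 0 0 1) := by
        unfold sq
        rw [if_neg hk]
        have h2 : (Fm m k).map aug = Matrix.fromBlocks !![1, 1; 1, 2] 0 0 1 := by
          unfold Fm
          rw [Matrix.fromBlocks_map, aug_Gm, Matrix.map_one aug (map_zero _) (map_one _)]
          congr 1
          · exact Matrix.map_zero _ (map_zero _)
          · exact Matrix.map_zero _ (map_zero _)
        rw [← h2]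
        rfl
      rw [h1]
      simp only [Matrix.reindex_apply]
      rw [Matrix.transpose_submatrix, Matrix.submatrix_mul_equiv, Matrix.submatrix_mul_equiv,
        Matrix.fromBlocks_transpose, Matrix.fromBlocks_multiply, Matrix.fromBlocks_multiply]
      have h3 : (!![1, -1; 0, 1] : Matrix (Fin 2) (Fin 2) ℤ)ᵀ * !![1, 1; 1, 2] * !![1, -1; 0, 1]
          = 1 := by decide
      simp only [Matrix.transpose_zero, Matrix.transpose_one, Matrix.mul_zero, Matrix.zero_mul,
        add_zero, zero_add, Matrix.mul_one]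
      rw [h3, Matrix.fromBlocks_one, Matrix.submatrix_one_equiv]

lemma isometric_reindex {A B : Matrix (Fin 2 ⊕ Fin m) (Fin 2 ⊕ Fin m) ℤ[T;T⁻¹]}
    (h : Isometric (Matrix.reindex e e A) (Matrix.reindex e e B)) : Isometric A B := by
  obtain ⟨P, hP, hPAB⟩ := h
  refine ⟨Matrix.reindex e.symm e.symm P, ?_, ?_⟩
  · rwa [Matrix.det_reindex_self]
  · have h1 : conjT (Matrix.reindex e.symm e.symm P) = Matrix.reindex e.symm e.symm (conjT P) := rfl
    have h2 : A = Matrix.reindex e.symm e.symm (Matrix.reindex e e A) := by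
      refine Matrix.ext fun i j => ?_; simp
    have h3 : B = Matrix.reindex e.symm e.symm (Matrix.reindex e e B) := by
      refine Matrix.ext fun i j => ?_; simp
    rw [h1]
    conv_lhs => rw [h2]
    rw [h3, ← hPAB]
    simp only [Matrix.reindex_apply, Equiv.symm_symm]
    rw [← Matrix.submatrix_mul_equiv _ _ _ e _, ← Matrix.submatrix_mul_equiv _ _ _ e _]

lemma not_isometric_sq {k l : ℕ} (hkl : k ≠ l) : ¬ Isometric (sq e k) (sq e l) := by
  intro h
  have hone : (1 : Matrix n n ℤ[T;T⁻¹]) = Matrix.reindex e e 1 := by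
    simp [Matrix.reindex_apply]
  unfold sq at h
  by_cases hk : k = 0
  · have hl : l ≠ 0 := by omega
    rw [if_pos hk, if_neg hl, hone] at h
    exact not_isometric_one m (by omega) (isometric_reindex e h).symm
  · by_cases hl : l = 0
    · rw [if_neg hk, if_pos hl, hone] at h
      exact not_isometric_one m (by omega) (isometric_reindex e h)
    · rw [if_neg hk, if_neg hl] at h
      exact not_isometric_of_ne m (by omega) (by omega) (by omega : (l : ℤ) ≠ k)
        (isometric_reindex e h)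

end Transport

lemma sc_ne_zero : sc ≠ 0 := by
  have h1 : (T 1 - 1 : ℤ[T;T⁻¹]) ≠ 0 := by
    intro h
    have := congrArg (fun x : ℤ[T;T⁻¹] => x.coeff 1) h
    rw [← T_zero] at this
    simp only [AddMonoidAlgebra.coeff_sub, Finsupp.sub_apply, T_apply] at this
    simp at this
  have h2 : (T (-1) - 1 : ℤ[T;T⁻¹]) ≠ 0 := by
    intro h
    have := congrArg (fun x : ℤ[T;T⁻¹] => x.coeff (-1)) h
    rw [← T_zero] at this
    simp only [AddMonoidAlgebra.coeff_sub, Finsupp.sub_apply, T_apply] at this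
    simp at this
  exact mul_ne_zero h1 h2

lemma isometric_of_smul {n : Type} [Fintype n] [DecidableEq n] {A B : Matrix n n ℤ[T;T⁻¹]}
    (h : Isometric (sc • A) (sc • B)) : Isometric A B := by
  obtain ⟨P, hP, hPAB⟩ := h
  refine ⟨P, hP, ?_⟩
  rw [Matrix.mul_smul, Matrix.smul_mul] at hPAB
  exact smul_right_injective _ sc_ne_zero hPAB

lemma isometric_of_neg {n : Type} [Fintype n] [DecidableEq n] {A B : Matrix n n ℤ[T;T⁻¹]}
    (h : Isometric (-A) (-B)) : Isometric A B := by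
  obtain ⟨P, hP, hPAB⟩ := h
  refine ⟨P, hP, ?_⟩
  rw [Matrix.mul_neg, Matrix.neg_mul] at hPAB
  exact neg_injective hPAB

/-- For `(cp, cm) = (c, 0)` or `(0, c)` with `c ≥ 2` there are infinitely many pairwise
non-isometric forms `(t - 1)(t⁻¹ - 1) L'` with `L'` nonsingular, hermitian and
`L'(1) ≅ (1)^{cp} ⊕ (-1)^{cm}`; the first one is the standard form. -/
theorem result (cp cm : ℕ) (h : (2 ≤ cp ∧ cm = 0) ∨ (cp = 0 ∧ 2 ≤ cm)) :
    ∃ F : ℕ → Matrix (Fin cp ⊕ Fin cm) (Fin cp ⊕ Fin cm) ℤ[T;T⁻¹],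
      F 0 = sc • stdForm ℤ[T;T⁻¹] cp cm ∧
      (∀ k, IsExteriorForm cp cm (F k)) ∧
      ∀ k l, k ≠ l → ¬ Isometric (F k) (F l) := by
  rcases h with ⟨hc, rfl⟩ | ⟨rfl, hc⟩
  · obtain ⟨m, rfl⟩ : ∃ m, cp = 2 + m := ⟨cp - 2, by omega⟩
    let e : Fin 2 ⊕ Fin m ≃ Fin (2 + m) ⊕ Fin 0 := finSumFinEquiv.trans (Equiv.sumEmpty _ _).symm
    have hstd : ∀ (R : Type) [CommRing R], stdForm R (2 + m) 0 = 1 := by
      intro R _
      refine Matrix.ext fun i j => ?_
      rcases i with i | i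
      · rcases j with j | j
        · simp [stdForm, Matrix.diagonal_apply, Matrix.one_apply]
        · exact j.elim0
      · exact i.elim0
    refine ⟨fun k => sc • sq e k, ?_, ?_, ?_⟩
    · change sc • sq e 0 = _
      rw [hstd, sq, if_pos rfl]
    · intro k
      obtain ⟨Q, hQ, hQ'⟩ := aug_sq e k
      exact ⟨sq e k, conjT_sq e k, by rw [det_sq]; exact isUnit_one,
        ⟨Q, hQ, by rw [hQ', hstd]⟩, rfl⟩
    · intro k l hkl hiso
      exact not_isometric_sq e hkl (isometric_of_smul hiso)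
  · obtain ⟨m, rfl⟩ : ∃ m, cm = 2 + m := ⟨cm - 2, by omega⟩
    let e : Fin 2 ⊕ Fin m ≃ Fin 0 ⊕ Fin (2 + m) := finSumFinEquiv.trans (Equiv.emptySum _ _).symm
    have hstd : ∀ (R : Type) [CommRing R], stdForm R 0 (2 + m) = -1 := by
      intro R _
      refine Matrix.ext fun i j => ?_
      rcases i with i | i
      · exact i.elim0
      · rcases j with j | j
        · exact j.elim0
        · rw [Matrix.neg_apply]
          simp only [stdForm, Matrix.diagonal_apply, Matrix.one_apply]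
          split_ifs <;> simp
    refine ⟨fun k => sc • (- sq e k), ?_, ?_, ?_⟩
    · change sc • (- sq e 0) = _
      rw [hstd, sq, if_pos rfl]
    · intro k
      obtain ⟨Q, hQ, hQ'⟩ := aug_sq e k
      refine ⟨- sq e k, by rw [conjT_neg, conjT_sq], ?_, ⟨Q, hQ, ?_⟩, rfl⟩
      · rw [Matrix.det_neg, det_sq, mul_one]
        exact (isUnit_one.neg).pow _
      · have : (- sq e k).map aug = - (sq e k).map aug := by
          refine Matrix.ext fun i j => ?_
          simp
        rw [this, Matrix.mul_neg, Matrix.neg_mul, hQ', hstd]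
    · intro k l hkl hiso
      exact not_isometric_sq e hkl (isometric_of_neg (isometric_of_smul hiso))

end Pool.Agent.Results.MP_64c4e2_gt.DefiniteExotic
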